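import Pool.Agent.MP_ca0a54_nt.BW.Spec
import Pool.Agent.MP_ca0a54_nt.BH.ENT

/-! The entropy decrement for the Liouville function on long windows. -/

open Complex MeasureTheory Filter Topology

namespace Pool.Agent.MP_ca0a54_nt.BW.ENTW

open Pool.Agent.MP_ca0a54_nt.BH
open Pool.Agent.MP_ca0a54_nt.BH.ENT (sh sh_iter FA_le FA_congr bad_le)
open Pool.Agent.MP_4b405e_nt.H17 (Sp MP)

/-- The shifted harmonic sum. -/
noncomputable def W (a K : ℕ) : ℝ := ∑ k : Fin (K + 1), 1 / ((k : ℕ) + a + 1 : ℝ)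

theorem W_pos (a K : ℕ) : 0 < W a K :=
  Finset.sum_pos (fun _ _ => by positivity) Finset.univ_nonempty

theorem W_aux (a K : ℕ) : W a K ≤ 1 + ∑ n ∈ Finset.Ioc a (a + K), 1 / (n : ℝ) := by
  have e : ∀ K : ℕ, ∑ k ∈ Finset.range K, 1 / ((k : ℝ) + a + 1) =
      ∑ n ∈ Finset.Ioc a (a + K), 1 / (n : ℝ) := by
    intro K
    induction K with
    | zero => simp
    | succ K ih =>
      rw [Finset.sum_range_succ, ih, ← add_assoc, Finset.sum_Ioc_succ_top (Nat.le_add_right a K)]
      push_cast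
      rw [add_comm (K : ℝ)]
  rw [W, Fin.sum_univ_eq_sum_range fun k : ℕ => 1 / ((k : ℝ) + a + 1), Finset.sum_range_succ, e,
    add_comm]
  refine add_le_add_left ((div_le_one (by positivity)).2 ?_) _
  linarith [Nat.cast_nonneg (α := ℝ) K, Nat.cast_nonneg (α := ℝ) a]

theorem W_le (N : Win) {M : ℕ} (hM : 1 ≤ M) : W (N.A / M) (N.B / M - N.A / M) ≤ 3 + wl N := by
  have h1 := W_aux (N.A / M) (N.B / M - N.A / M)
  rw [Nat.add_sub_cancel' (Nat.div_le_div_right N.le)] at h1
  have h2 : ∑ n ∈ Finset.Ioc (N.A / M) (N.B / M), 1 / (n : ℝ) ≤ _ := WS_one_le (N.div M)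
  linarith [wl_div N hM]

/-- The blocks of length `M` with harmonic weights. -/
noncomputable def sp (a K M : ℕ) [NeZero M] : Sp where
  Ω := Fin (K + 1) × ZMod M
  fin := inferInstance
  p ω := 1 / ((ω.1 : ℕ) + a + 1 : ℝ) / (M * W a K)
  pos ω := by
    have := W_pos a K
    have := NeZero.pos M
    positivity
  tot := by
    have h1 := W_pos a K
    have h2 := NeZero.pos M
    rw [Fintype.sum_prod_type]
    simp only [Finset.sum_const, Finset.card_univ, ZMod.card, nsmul_eq_mul]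
    rw [← Finset.mul_sum, ← Finset.sum_div]
    change (M : ℝ) * (W a K / (M * W a K)) = 1
    field_simp

theorem mp_sh (a K M : ℕ) [NeZero M] : MP (sp a K M) (sp a K M) sh := fun _ =>
  Fintype.sum_equiv ((Equiv.refl (Fin (K + 1))).prodCongr (Equiv.addRight (1 : ZMod M))) _ _
    fun _ => rfl

/-- The integer attached to a point. -/
def pt (a : ℕ) {K M : ℕ} (ω : Fin K × ZMod M) : ℕ := (ω.1 + a + 1) * M + ω.2.val

theorem cover {f : ℕ → ℝ} {D : ℝ} (hf : ∀ n, 0 ≤ f n) (hD : ∀ n, f n ≤ D) (N : Win) (M : ℕ)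
    [NeZero M] {a K : ℕ} (ha : a = N.A / M) (hK : N.B / M ≤ a + K) :
    WS N f ≤ M * D + ∑ ω : Fin (K + 1) × ZMod M,
      f (pt a ω) / ((((ω.1 : ℕ) : ℝ) + a + 1) * M) := by
  have hM := NeZero.pos M
  unfold WS
  rw [← Finset.sum_filter_add_sum_filter_not _ fun n => n < (a + 1) * M]
  refine add_le_add ?_ ?_
  · refine (Finset.sum_le_card_nsmul _ _ D fun n hn => ?_).trans ?_
    · exact (div_le_self (hf n)
        (by exact_mod_cast (Win.mem (Finset.mem_filter.1 hn).1).1)).trans (hD n)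
    · rw [nsmul_eq_mul]
      refine mul_le_mul_of_nonneg_right ?_ ((hf 0).trans (hD 0))
      have h0 : a * M ≤ N.A := ha ▸ Nat.div_mul_le_self _ _
      have h1 := Finset.card_le_card (t := Finset.Ico (a * M) ((a + 1) * M))
        (s := (Finset.Ioc N.A N.B).filter fun n => n < (a + 1) * M) fun n hn => Finset.mem_Ico.2
          ⟨h0.trans (Finset.mem_Ioc.1 (Finset.mem_filter.1 hn).1).1.le, (Finset.mem_filter.1 hn).2⟩
      rw [Nat.card_Ico, add_one_mul, Nat.add_sub_cancel_left, ← add_one_mul] at h1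
      exact_mod_cast h1
  · calc _ ≤ ∑ n ∈ Finset.univ.image (pt a (K := K + 1) (M := M)), f n / n := by
          refine Finset.sum_le_sum_of_subset_of_nonneg (fun n hn => ?_)
            fun n _ _ => div_nonneg (hf n) (Nat.cast_nonneg n)
          obtain ⟨h1, h2⟩ := Finset.mem_filter.1 hn
          have h3 : a + 1 ≤ n / M := (Nat.le_div_iff_mul_le hM).2 (not_lt.1 h2)
          have h4 : n / M ≤ N.B / M := Nat.div_le_div_right (Finset.mem_Ioc.1 h1).2
          refine Finset.mem_image.2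
            ⟨(⟨n / M - (a + 1), by omega⟩, (n : ZMod M)), Finset.mem_univ _, ?_⟩
          simp only [pt, ZMod.val_natCast]
          rw [add_assoc _ a, Nat.sub_add_cancel h3, Nat.div_add_mod']
      _ ≤ ∑ ω : Fin (K + 1) × ZMod M, f (pt a ω) / pt a ω :=
          Finset.sum_image_le_of_nonneg fun n _ => div_nonneg (hf n) (Nat.cast_nonneg n)
      _ ≤ _ := Finset.sum_le_sum fun ω _ => div_le_div_of_nonneg_left (hf _) (by positivity)
          (by exact_mod_cast Nat.le_add_right _ _)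

theorem core {N : Win} {M B h H a K : ℕ} [NeZero M] (ha : a = N.A / M) (hK : N.B / M ≤ a + K)
    {P : Finset ℕ} (hh : 1 ≤ h)
    (hH : H ≤ B) (hP : ∀ p ∈ P, p * h ≤ H ∧ p ∣ M) {δ : ℝ}
    (hM : (B + 1) * (2 * B : ℕ) ≤ δ * M)
    (hE : (sp a K M).E (fun ω => |FA (fun j => lam (pt a (sh^[j] ω))) ω.2.val P h H|) ≤
      δ * P.card * H) :
    WS N (fun n => |FA (fun j => lam (n + j)) n P h H|) ≤
      P.card * H * (M * (B + 1) + 2 * δ * W a K) := by
  have hM0 : (0 : ℝ) < M := by exact_mod_cast NeZero.pos M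
  have hW := W_pos a K
  have hD : ∀ n, |FA (fun j => lam (n + j)) n P h H| ≤ P.card * H * (B + 1) := fun n =>
    FA_le (fun _ => abs_lam_le _) n
      (fun p hp => (Nat.le_mul_of_pos_right p hh).trans ((hP p hp).1.trans hH)) h H
  set D : ℝ := P.card * H * (B + 1) with hDe
  have h1 : ∀ ω : Fin (K + 1) × ZMod M, |FA (fun j => lam (pt a ω + j)) (pt a ω) P h H| ≤
      |FA (fun j => lam (pt a (sh^[j] ω))) ω.2.val P h H| +
        D * if M < ω.2.val + 2 * B then (1 : ℝ) else 0 := by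
    intro ω
    split_ifs with hb
    · linarith [hD (pt a ω), abs_nonneg (FA (fun j => lam (pt a (sh^[j] ω))) ω.2.val P h H)]
    · rw [mul_zero, add_zero, FA_congr (x' := fun j => lam (pt a (sh^[j] ω))) (y' := ω.2.val)]
      · intro j hj
        have hj' : j < M := by omega
        rw [sh_iter, pt, pt, ZMod.val_add, ZMod.val_natCast, Nat.mod_eq_of_lt hj',
          Nat.mod_eq_of_lt (by omega), add_assoc _ ω.2.val]
      · refine fun p hp => ⟨(hP p hp).1, fun j => ?_⟩
        rw [pt, add_assoc _ ω.2.val]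
        exact Nat.dvd_add_right ((hP p hp).2.mul_left _)
  have h2 : ∑ ω : Fin (K + 1) × ZMod M,
      |FA (fun j => lam (pt a (sh^[j] ω))) ω.2.val P h H| / ((((ω.1 : ℕ) : ℝ) + a + 1) * M) =
      W a K * (sp a K M).E
        fun ω => |FA (fun j => lam (pt a (sh^[j] ω))) ω.2.val P h H| := by
    unfold Sp.E
    rw [Finset.mul_sum]
    refine Finset.sum_congr rfl fun ω _ => ?_
    simp only [sp]
    field_simp
  have h3 : ∑ ω : Fin (K + 1) × ZMod M,
      (D * if M < ω.2.val + 2 * B then (1 : ℝ) else 0) / ((((ω.1 : ℕ) : ℝ) + a + 1) * M) =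
      W a K * (D / M * ∑ r : ZMod M, if M < r.val + 2 * B then (1 : ℝ) else 0) := by
    rw [Fintype.sum_prod_type, W, Finset.sum_mul]
    refine Finset.sum_congr rfl fun k _ => ?_
    rw [Finset.mul_sum, Finset.mul_sum]
    refine Finset.sum_congr rfl fun r _ => ?_
    field_simp
  have h4 : D / M * (∑ r : ZMod M, if M < r.val + 2 * B then (1 : ℝ) else 0) ≤
      δ * P.card * H := by
    refine (mul_le_mul_of_nonneg_left (bad_le M (2 * B)) (by positivity)).trans ?_
    rw [div_mul_eq_mul_div, div_le_iff₀ hM0, hDe]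
    have := mul_le_mul_of_nonneg_left hM (by positivity : (0 : ℝ) ≤ P.card * H)
    linarith
  refine (cover (fun _ => abs_nonneg _) hD N M ha hK).trans ?_
  refine (add_le_add le_rfl (Finset.sum_le_sum fun ω _ =>
    div_le_div_of_nonneg_right (h1 ω) (by positivity))).trans ?_
  simp only [add_div]
  rw [Finset.sum_add_distrib, h2, h3]
  have h5 := mul_le_mul_of_nonneg_left hE hW.le
  have h6 := mul_le_mul_of_nonneg_left h4 hW.le
  rw [hDe] at *
  linarith

theorem entw : DecrStmt → EntWStmt := by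
  intro hd h H₀ c ε P hh hc hε hA
  obtain ⟨H₁, hH₁⟩ := eventually_atTop.1 hA
  obtain ⟨G, Q, hQ, hG, hd⟩ := hd h (max H₀ H₁) c (ε / 4) P hh hc (by positivity) hA
  refine ⟨G, fun H hH => (le_max_left _ _).trans (hG H hH).1, ?_⟩
  set B := G.sup id with hB
  obtain ⟨m, hm⟩ := exists_nat_ge (((B : ℝ) + 1) * (2 * B : ℕ) / (ε / 4))
  set M := Q * (m + 1) with hM
  have : NeZero M := ⟨by positivity⟩
  have hM1 : ((B : ℝ) + 1) * (2 * B : ℕ) ≤ ε / 4 * M := by
    rw [div_le_iff₀' (by positivity)] at hm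
    refine hm.trans (mul_le_mul_of_nonneg_left ?_ (by positivity))
    exact_mod_cast (Nat.le_succ m).trans (Nat.le_mul_of_pos_left _ hQ)
  filter_upwards [tendsto_wl.eventually_ge_atTop ((M * (B + 1) + 3 * (ε / 2)) / (ε / 2))] with N hN
  obtain ⟨H, hH, hE⟩ := hd (sp (N.A / M) (N.B / M - N.A / M) M) sh (fun ω => lam (pt (N.A / M) ω))
    (fun ω => ω.2.val) (mp_sh _ _ _)
    (fun ω => lam_eq (le_add_right (Nat.mul_pos (Nat.succ_pos _) (NeZero.pos M))))
    fun ω => Nat.ModEq.of_mul_right (m + 1) ((ZMod.natCast_eq_natCast_iff _ _ M).1 (by simp [sh]))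
  refine ⟨H, hH, (core rfl le_add_tsub hh (Finset.le_sup (f := id) hH) (fun p hp =>
    ⟨((hH₁ H ((le_max_right _ _).trans (hG H hH).1)).1 p hp).2,
      ((hG H hH).2 p hp).mul_right _⟩) hM1 hE).trans ?_⟩
  have h1 := W_le N (NeZero.pos M)
  rw [div_le_iff₀' (by positivity)] at hN
  have h2 : M * (B + 1) + 2 * (ε / 4) * W (N.A / M) (N.B / M - N.A / M) ≤ ε * wl N := by nlinarith
  calc _ ≤ (P H).card * H * (ε * wl N) := mul_le_mul_of_nonneg_left h2 (by positivity)
    _ = _ := by ring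

end Pool.Agent.MP_ca0a54_nt.BW.ENTW
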