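import Pool.Agent.MP_ca0a54_nt.BW.Spec
import Pool.Agent.MP_ca0a54_nt.BH.IRR

/-! Short sums of the Liouville function with an irrational additive twist, on windows. -/

open Complex Filter Finset

namespace Pool.Agent.MP_ca0a54_nt.BW.IRRW

open Pool.Agent.MP_ca0a54_nt.BH
open Pool.Agent.MP_ca0a54_nt.BH.IRR (norm_tw lip ei_ne big A A_nonneg)

lemma ell (N : Win) : 0 ≤ 1 + wl N := add_nonneg zero_le_one (wl_nonneg N)

/-- An oscillating factor against a slowly varying weight. -/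
lemma osc (β : ℝ) {W : ℕ → ℂ} {D : ℝ} (h1 : ∀ n, ‖W n‖ ≤ 1) (h2 : ∀ n, ‖W (n + 1) - W n‖ ≤ D)
    (N : Win) : ‖ei β - 1‖ * ‖WC N fun m => ei (β * m) * W m‖ ≤ D * (1 + wl N) + 6 := by
  have h3 := WC_shift_one (f := fun m => ei (β * m) * W m) (B := 1)
    (fun n => by rw [norm_mul, norm_ei, one_mul]; exact h1 n) N
  have h4 : ‖WC N fun m => ei (β * (m + 1 : ℕ)) * (W (m + 1) - W m)‖ ≤ D * (1 + wl N) :=
    (norm_WC_le _ _).trans (WS_le ((norm_nonneg _).trans (h2 0)) fun n _ _ => by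
      rw [norm_mul, norm_ei, one_mul]; exact h2 n)
  have e : (ei β - 1) * (WC N fun m => ei (β * m) * W m) =
      ((WC N fun m => ei (β * (m + 1 : ℕ)) * W (m + 1)) - WC N fun m => ei (β * m) * W m) -
        WC N fun m => ei (β * (m + 1 : ℕ)) * (W (m + 1) - W m) := by
    rw [← WC_mul, ← WC_sub, ← WC_sub]
    congr 1
    funext m
    rw [Nat.cast_succ, mul_add, mul_one, ei_add]
    ring
  rw [← norm_mul, e]
  exact (norm_sub_le _ _).trans (by linarith)

lemma tkL {B : Finset ℕ} (hB : ∀ p ∈ B, p.Prime) (hL : 0 < rcp B) (N : Win) :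
    WS N (fun n => (om B n / rcp B - 1) ^ 2) ≤
      LS B.card (fun n => (om B n / rcp B - 1) ^ 2) + 5 * (1 + wl N) / rcp B := by
  have hc : 1 ≤ B.card := by
    rcases B.eq_empty_or_nonempty with rfl | h
    · simp [rcp] at hL
    · exact h.card_pos
  have hm : (0 : ℝ) < (max N.A B.card : ℕ) := by exact_mod_cast (by omega : 0 < max N.A B.card)
  have h1 := tk_long B hB hL (v := Real.log (max N.A B.card : ℕ))
    (w := Real.log (max N.A B.card : ℕ) + wl N)
    (by rw [Real.exp_log hm]; exact_mod_cast le_max_right _ _)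
    (le_add_of_nonneg_right (wl_nonneg N))
  rw [add_sub_cancel_left, add_comm _ 1] at h1
  refine le_trans ?_ (add_le_add_right h1 _)
  rw [WS, LS, ← sum_union_inter]
  refine le_add_of_le_of_nonneg (sum_le_sum_of_subset_of_nonneg (fun n hn => ?_)
    fun n _ _ => by positivity) (sum_nonneg fun n _ => by positivity)
  obtain ⟨a, b⟩ := Win.mem hn
  rw [mem_union, mem_Icc, mem_iv]
  by_cases h : n ≤ B.card
  · exact Or.inl ⟨a, h⟩
  · refine Or.inr ⟨a, Real.log_lt_log hm
      (by exact_mod_cast max_lt (mem_Ioc.1 hn).1 (not_le.1 h)), ?_⟩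
    unfold wl
    linarith [log_mono b, log_mono (le_max_left N.A B.card)]

lemma WS_abs {η : ℝ} (hη : 0 < η) (N : Win) (f : ℕ → ℝ) :
    WS N f ≤ η * (1 + wl N) + η⁻¹ * WS N fun n => f n ^ 2 := by
  have h1 := WS_mono (N := N) (f := f) (g := fun n => η + η⁻¹ * f n ^ 2) fun n _ _ => by
    rw [← sub_nonneg, show η + η⁻¹ * f n ^ 2 - f n = η⁻¹ * ((f n - η / 2) ^ 2 + 3 / 4 * η ^ 2) by
      field_simp; ring]
    positivity
  rw [WS_add, WS_mul] at h1
  linarith [WS_le (N := N) (f := fun _ => η) hη.le fun _ _ _ => le_rfl]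

lemma WS_sq (N : Win) (Y : ℕ → ℂ) :
    WS N (fun n => ‖Y n‖ ^ 2) ≤ ‖WC N fun n => Y n * (starRingEnd ℂ) (Y n)‖ := by
  simp only [mul_conj, normSq_eq_norm_sq]
  rw [WC_ofReal, norm_real]
  exact le_abs_self _

lemma bil {α : ℝ} (hα : Irrational α) {B : Finset ℕ} (hB : ∀ p ∈ B, p.Prime) {θ : ℕ → ℂ} {D : ℝ}
    (h1 : ∀ n, ‖θ n‖ ≤ 1) (h2 : ∀ n, ‖θ (n + 1) - θ n‖ ≤ D) (N : Win) :
    WS N (fun m => ‖∑ p ∈ B, (p : ℂ)⁻¹ * (ei (2 * Real.pi * α * (p * m : ℕ)) * θ (p * m))‖ ^ 2) ≤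
      rcp B * (1 + wl N) + A α B * (D * (1 + wl N) + 3) := by
  have hD : 0 ≤ D := (norm_nonneg _).trans (h2 0)
  have hl := ell N
  refine (WS_sq _ _).trans ?_
  simp only [map_sum, sum_mul_sum, WC_sum]
  rw [rcp, A, sum_mul, sum_mul, ← sum_add_distrib]
  refine norm_sum_le_of_le _ fun p hp => ?_
  rw [← sum_ite_eq_of_mem B p (fun _ => 1 / (p : ℝ) * (1 + wl N)) hp, sum_mul,
    ← sum_add_distrib]
  refine norm_sum_le_of_le _ fun q hq => ?_
  have p1 : (1 : ℝ) ≤ p := by exact_mod_cast (hB p hp).one_le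
  have q1 : (1 : ℝ) ≤ q := by exact_mod_cast (hB q hq).one_le
  have e : (fun m : ℕ => (p : ℂ)⁻¹ * (ei (2 * Real.pi * α * (p * m : ℕ)) * θ (p * m)) *
      (starRingEnd ℂ) ((q : ℂ)⁻¹ * (ei (2 * Real.pi * α * (q * m : ℕ)) * θ (q * m)))) =
      fun m : ℕ => ((p : ℂ)⁻¹ * (q : ℂ)⁻¹) * (ei (2 * Real.pi * α * (p - q) * m) *
        (θ (p * m) * (starRingEnd ℂ) (θ (q * m)))) := by
    funext m
    rw [map_mul, map_mul, conj_ei, map_inv₀, map_natCast,
      show 2 * Real.pi * α * (p - q) * m = 2 * Real.pi * α * (p * m : ℕ) +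
        -(2 * Real.pi * α * (q * m : ℕ)) by push_cast; ring, ei_add]
    ring
  have w1 : ∀ m, ‖θ (p * m) * (starRingEnd ℂ) (θ (q * m))‖ ≤ 1 := fun m => by
    rw [norm_mul, norm_conj]
    exact mul_le_one₀ (h1 _) (norm_nonneg _) (h1 _)
  have iq : (q : ℝ)⁻¹ ≤ 1 := inv_le_one_of_one_le₀ q1
  have ip : (p : ℝ)⁻¹ ≤ 1 := inv_le_one_of_one_le₀ p1
  rw [e, WC_mul, norm_mul, norm_mul, norm_inv, norm_inv, norm_natCast, norm_natCast]
  split_ifs with h
  · refine le_add_of_le_of_nonneg (mul_le_mul ?_ ((norm_WC_le _ _).trans ((WS_le zero_le_one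
      fun n _ _ => ?_).trans_eq (one_mul _))) (norm_nonneg _) (by positivity)) (by positivity)
    · rw [one_div]
      exact mul_le_of_le_one_right (by positivity) iq
    · rw [norm_mul, norm_ei, one_mul]
      exact w1 n
  · have h3 := osc (2 * Real.pi * α * (p - q)) (D := (p + q) * D) w1 (fun m => by
      have a1 := lip h2 (p * m) p
      have a2 := lip h2 (q * m) q
      rw [show θ (p * (m + 1)) * (starRingEnd ℂ) (θ (q * (m + 1))) -
        θ (p * m) * (starRingEnd ℂ) (θ (q * m)) = (θ (p * m + p) - θ (p * m)) *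
          (starRingEnd ℂ) (θ (q * m + q)) + θ (p * m) * (starRingEnd ℂ) (θ (q * m + q) - θ (q * m))
        by rw [map_sub, mul_add_one, mul_add_one]; ring, add_mul]
      refine (norm_add_le _ _).trans (add_le_add ?_ ?_) <;> rw [norm_mul, norm_conj]
      · exact (mul_le_of_le_one_right (norm_nonneg _) (h1 _)).trans a1
      · exact (mul_le_of_le_one_left (norm_nonneg _) (h1 _)).trans a2) N
    rw [zero_add, div_mul_eq_mul_div, le_div_iff₀' (norm_pos_iff.2 (ei_ne hα h)), mul_left_comm]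
    refine (mul_le_of_le_one_left (by positivity) (mul_le_one₀ ip (by positivity) iq)).trans
      (h3.trans ?_)
    nlinarith

/-- The criterion of Katai with a slowly varying weight. -/
lemma kat {α : ℝ} (hα : Irrational α) {η : ℝ} (hη : 0 < η) : ∃ D C : ℝ, 0 < D ∧
    ∀ θ : ℕ → ℂ, (∀ n, ‖θ n‖ ≤ 1) → (∀ n, ‖θ (n + 1) - θ n‖ ≤ D) → ∀ N : Win,
      ‖WC N fun n => tw α n * θ n‖ ≤ 5 * η * (1 + wl N) + C := by
  obtain ⟨B, hB, hR⟩ := big (1 + 5 * η⁻¹ ^ 2)
  have L1 : 1 ≤ rcp B := le_trans (le_add_of_nonneg_right (by positivity)) hR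
  have L0 : 0 < rcp B := by linarith
  have A0 := A_nonneg α B
  set L := rcp B with hL
  have k1 : η⁻¹ * (5 / L) ≤ η := by
    rw [← mul_div_assoc, div_le_iff₀ L0]
    have := mul_le_mul_of_nonneg_left hR hη.le
    rw [show η * (1 + 5 * η⁻¹ ^ 2) = η + η⁻¹ * 5 by field_simp] at this
    linarith
  refine ⟨(A α B + 1)⁻¹, η⁻¹ * LS B.card (fun n => (om B n / L - 1) ^ 2) + 2 * B.card +
    η⁻¹ * (3 * A α B), by positivity, fun θ h1 h2 N => ?_⟩
  have hl := ell N
  have f1 : ∀ n, ‖tw α n * θ n‖ ≤ 1 := fun n => by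
    rw [norm_mul]
    exact mul_le_one₀ (norm_tw α n) (norm_nonneg _) (h1 n)
  set Y : ℕ → ℂ := fun m => ∑ p ∈ B, (p : ℂ)⁻¹ * (ei (2 * Real.pi * α * (p * m : ℕ)) * θ (p * m))
    with hY
  have e : (WC N fun n => tw α n * θ n) =
      (L : ℂ)⁻¹ * (∑ p ∈ B, ((WC N fun n => if p ∣ n then tw α n * θ n else 0) -
        (WC N fun m => tw α (p * m) * θ (p * m)) / p) - WC N fun m => lam m * Y m) -
      WC N fun n => (om B n / L - 1 : ℝ) * (tw α n * θ n) := by
    have e1 : (WC N fun m => lam m * Y m) =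
        -∑ p ∈ B, (WC N fun m => tw α (p * m) * θ (p * m)) / p := by
      simp only [hY, mul_sum, WC_sum]
      rw [← sum_neg_distrib]
      refine sum_congr rfl fun p hp => ?_
      rw [div_eq_inv_mul, ← neg_mul, ← WC_mul]
      congr 1
      funext m
      rw [tw, lam_mul, lam_prime (hB p hp)]
      push_cast
      ring
    rw [e1, sum_sub_distrib, sub_neg_eq_add, sub_add_cancel, ← WC_sum, ← WC_mul, ← WC_sub]
    congr 1
    funext n
    rw [om_eq]
    push_cast
    rw [div_eq_inv_mul, sub_mul, mul_assoc, sum_mul, one_mul, eq_comm, sub_sub_eq_add_sub,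
      sub_eq_iff_eq_add, add_comm, add_right_inj]
    congr 1
    exact sum_congr rfl fun p _ => by split_ifs <;> simp
  have t1 : ‖WC N fun n => (om B n / L - 1 : ℝ) * (tw α n * θ n)‖ ≤ 2 * η * (1 + wl N) +
      η⁻¹ * LS B.card (fun n => (om B n / L - 1) ^ 2) := by
    have a1 := (norm_WC_le N fun n => (om B n / L - 1 : ℝ) * (tw α n * θ n)).trans
      (WS_mono (g := fun n => |om B n / L - 1|) fun n _ _ => by
        rw [norm_mul, norm_real, Real.norm_eq_abs]
        exact mul_le_of_le_one_right (abs_nonneg _) (f1 n))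
    have a2 := WS_abs hη N fun n => |om B n / L - 1|
    simp only [sq_abs] at a2
    have a3 := mul_le_mul_of_nonneg_left (tkL hB L0 N) (inv_pos.2 hη).le
    have a4 := mul_le_mul_of_nonneg_right k1 hl
    rw [mul_add, ← hL, mul_div_right_comm, ← mul_assoc] at a3
    linarith
  have t2 : ‖∑ p ∈ B, ((WC N fun n => if p ∣ n then tw α n * θ n else 0) -
      (WC N fun m => tw α (p * m) * θ (p * m)) / p)‖ ≤ 2 * B.card :=
    (norm_sum_le _ _).trans ((sum_le_card_nsmul _ _ (2 * 1) fun p hp =>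
      WC_dil f1 N (hB p hp).one_le).trans_eq (by simp [mul_comm]))
  have t3 : ‖WC N fun m => lam m * Y m‖ ≤
      L * (2 * η * (1 + wl N) + η⁻¹ * (3 * A α B)) := by
    have a1 := (norm_WC_le N fun m => lam m * Y m).trans
      (WS_mono (g := fun n => ‖Y n‖) fun n _ _ => by
        rw [norm_mul, norm_real, Real.norm_eq_abs]
        exact mul_le_of_le_one_left (norm_nonneg _) (abs_lam_le n))
    have a2 := WS_abs (mul_pos hη L0) N fun n => ‖Y n‖
    have a3 := bil hα hB h1 h2 N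
    have a4 : A α B * (A α B + 1)⁻¹ ≤ L :=
      le_trans ((mul_inv_le_iff₀ (by positivity)).2 (by linarith)) L1
    have a5 : WS N (fun n => ‖Y n‖ ^ 2) ≤ 2 * L * (1 + wl N) + 3 * A α B := by
      have := mul_le_mul_of_nonneg_right a4 hl
      rw [← hL] at a3
      linarith
    have a6 := mul_le_mul_of_nonneg_left a5 (inv_pos.2 (mul_pos hη L0)).le
    have a7 : (η * L)⁻¹ * (2 * L) ≤ η * L := by
      have := mul_le_mul_of_nonneg_right k1 L0.le
      rw [show η⁻¹ * (5 / L) * L = η⁻¹ * 5 by field_simp] at this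
      rw [show (η * L)⁻¹ * (2 * L) = η⁻¹ * 2 by field_simp]
      linarith [inv_pos.2 hη]
    have a8 : (η * L)⁻¹ ≤ L * η⁻¹ := by
      rw [mul_inv, mul_comm]
      exact mul_le_mul_of_nonneg_right ((inv_le_one_of_one_le₀ L1).trans L1) (inv_pos.2 hη).le
    have a9 := mul_le_mul_of_nonneg_right a7 hl
    have a10 := mul_le_mul_of_nonneg_right a8 A0
    nlinarith
  rw [e]
  refine (norm_sub_le _ _).trans ?_
  rw [norm_mul, norm_inv, norm_real, Real.norm_of_nonneg L0.le]
  have t4 : L⁻¹ * _ ≤ 2 * B.card + (2 * η * (1 + wl N) + η⁻¹ * (3 * A α B)) :=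
    (inv_mul_le_iff₀ L0).2 (((norm_sub_le _ _).trans (add_le_add t2 t3)).trans (by
      nlinarith [B.card.cast_nonneg (α := ℝ)]))
  nlinarith

theorem irrw : IrrWStmt := by
  intro α hα ε hε
  obtain ⟨D, C, hD, h⟩ := kat hα (η := ε / 6) (by positivity)
  filter_upwards [eventually_ge_atTop 1, (tendsto_natCast_atTop_atTop (R := ℝ)).eventually_ge_atTop
    (2 / D)] with K K1 K2
  filter_upwards [tendsto_wl.eventually_ge_atTop (5 + 6 / ε * (C + 6 * K))] with N hN
  have K0 : (0 : ℝ) < K := by exact_mod_cast K1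
  set S : ℕ → ℂ := fun n => ∑ j ∈ range K, tw α (n + j) with hS
  have S1 : ∀ n, ‖S n‖ ≤ K := fun n =>
    (norm_sum_le _ _).trans ((sum_le_card_nsmul _ _ 1 fun j _ => norm_tw α _).trans_eq (by simp))
  have S2 : ∀ n, ‖S (n + 1) - S n‖ ≤ 2 := fun n => by
    have e : S (n + 1) - S n = tw α (n + K) - tw α (n + 0) := by
      rw [← sum_range_sub fun j => tw α (n + j), ← sum_sub_distrib]
      exact sum_congr rfl fun j _ => by rw [add_right_comm, add_assoc]
    rw [e]
    exact (norm_sub_le _ _).trans (by linarith [norm_tw α (n + K), norm_tw α (n + 0)])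
  have nK : ‖((K : ℂ) ^ 2)⁻¹‖ = ((K : ℝ) ^ 2)⁻¹ := by simp
  have h1 := h (fun n => ((K : ℂ) ^ 2)⁻¹ * ∑ j ∈ range K, (starRingEnd ℂ) (S (n - j)))
    (fun n => by
      rw [norm_mul, nK, inv_mul_le_iff₀ (by positivity)]
      exact (norm_sum_le _ _).trans ((sum_le_card_nsmul _ _ (K : ℝ) fun j _ =>
        (norm_conj _).trans_le (S1 _)).trans_eq (by simp [sq])))
    (fun n => by
      rw [← mul_sub, norm_mul, nK, inv_mul_le_iff₀ (by positivity), ← sum_sub_distrib]
      refine (norm_sum_le _ _).trans ((sum_le_card_nsmul _ _ 2 fun j _ => ?_).trans ?_)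
      · rw [← map_sub, norm_conj]
        by_cases hj : j ≤ n
        · rw [Nat.sub_add_comm hj]
          exact S2 _
        · rw [show n + 1 - j = n - j by omega]
          simp
      · rw [div_le_iff₀ hD] at K2
        rw [card_range, nsmul_eq_mul]
        nlinarith) N
  simp only [mul_left_comm (tw α _), WC_mul, mul_sum, WC_sum] at h1
  rw [← mul_sum, norm_mul, nK, inv_mul_le_iff₀ (by positivity)] at h1
  have h2 : ‖(WC N fun n => S n * (starRingEnd ℂ) (S n)) -
      ∑ j ∈ range K, WC N fun n => tw α n * (starRingEnd ℂ) (S (n - j))‖ ≤ K * (6 * K * K) := by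
    conv_lhs => enter [1, 1, 2, n]; rw [hS, sum_mul, ← hS]
    rw [WC_sum, ← sum_sub_distrib]
    refine (norm_sum_le _ _).trans ((sum_le_card_nsmul _ _ (6 * K * K : ℝ) fun j hj => ?_).trans_eq
      (by simp))
    have a1 := WC_shift (f := fun n => tw α n * (starRingEnd ℂ) (S (n - j))) (B := K) (fun n => by
      rw [norm_mul, norm_conj]
      exact (mul_le_of_le_one_left (norm_nonneg _) (norm_tw α n)).trans (S1 _)) N j
    simp only [Nat.add_sub_cancel] at a1
    refine a1.trans ?_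
    have : (j : ℝ) ≤ K := by exact_mod_cast (mem_range.1 hj).le
    gcongr
  refine (WS_sq N S).trans (((norm_le_insert' _ _).trans (add_le_add h1 h2)).trans ?_)
  have h3 : C + 6 * K ≤ ε / 6 * (wl N - 5) := by
    rw [← div_le_iff₀' (by positivity), div_eq_inv_mul, inv_div]
    exact le_sub_iff_add_le'.2 hN
  nlinarith [mul_le_mul_of_nonneg_left h3 (sq_nonneg (K : ℝ))]

end Pool.Agent.MP_ca0a54_nt.BW.IRRW
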