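import Pool.Agent.MP_ca0a54_nt.BW.Spec
import Pool.Agent.MP_ca0a54_nt.H78M.Glue
import Pool.Agent.MP_ca0a54_nt.H78M.AMP
import Pool.Agent.MP_ca0a54_nt.H78M.COS
import Pool.Agent.MP_ca0a54_nt.H78M.DEC
import Pool.Agent.MP_ca0a54_nt.H78M.EUL
import Pool.Agent.MP_ca0a54_nt.H78M.GA
import Pool.Agent.MP_ca0a54_nt.H78M.GM
import Pool.Agent.MP_ca0a54_nt.H78M.HM
import Pool.Agent.MP_ca0a54_nt.H78M.HV
import Pool.Agent.MP_ca0a54_nt.H78M.KER
import Pool.Agent.MP_ca0a54_nt.H78M.LIP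
import Pool.Agent.MP_ca0a54_nt.H78M.MER
import Pool.Agent.MP_ca0a54_nt.H78M.MVT
import Pool.Agent.MP_ca0a54_nt.H78M.NP
import Pool.Agent.MP_ca0a54_nt.H78M.PAR
import Pool.Agent.MP_ca0a54_nt.H78M.RAT
import Pool.Agent.MP_ca0a54_nt.H78M.SEL
import Pool.Agent.MP_ca0a54_nt.H78M.SH
import Pool.Agent.MP_ca0a54_nt.H78M.SPL
import Pool.Agent.MP_ca0a54_nt.H78M.TAIL
import Pool.Agent.MP_ca0a54_nt.H78M.TT
import Pool.Agent.MP_ca0a54_nt.H78M.UU
import Pool.Agent.MP_ca0a54_nt.H78M.WEYL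
import Pool.Agent.MP_ca0a54_nt.H78M.ZB

/-! Short sums of the Liouville function with a rational twist, on long windows. -/

open Complex Filter Topology

namespace Pool.Agent.MP_ca0a54_nt.BW.RATW

open Pool.Agent.MP_ca0a54_nt.BH

/-- The dyadic short interval theorem, assembled from its rows. -/
theorem fin : H78M.FinStmt :=
  have gm := H78M.gm H78M.mvt
  have amp := H78M.amp gm
  have dec := H78M.dec gm
  H78M.fin_of (H78M.tt amp dec H78M.mer H78M.par)
    (H78M.uu gm dec H78M.mer H78M.ga (H78M.bes H78M.ga)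
      (H78M.hv H78M.ga (H78M.hm (H78M.ker H78M.lip H78M.sel))) H78M.spl (H78M.den H78M.mer)
      (H78M.eul H78M.mer))
    (H78M.tail amp) (H78M.shs H78M.ga) (H78M.np (H78M.cosl (H78M.zb H78M.weyl) H78M.mer))
    H78M.rat

theorem blocks {f : ℕ → ℝ} {c : ℝ} {X₀ : ℕ}
    (h : ∀ X, X₀ ≤ X → ∑ n ∈ Finset.Ioc X (2 * X), f n ≤ c) (m : ℕ) {A : ℕ} (hA : X₀ ≤ A) :
    ∑ n ∈ Finset.Ioc A (2 ^ m * A), f n ≤ m * c := by
  induction m with
  | zero => simp
  | succ m ih =>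
    have h1 : A ≤ 2 ^ m * A := Nat.le_mul_of_pos_left _ (by positivity)
    have h2 : 2 ^ (m + 1) * A = 2 * (2 ^ m * A) := by ring
    rw [h2, ← Finset.sum_Ioc_consecutive _ h1 (by omega)]
    have h3 := h (2 ^ m * A) (hA.trans h1)
    push_cast
    linarith

theorem window {F : ℕ → ℝ} {c D : ℝ} {X₀ : ℕ} (hX : 1 ≤ X₀) (hc : 0 ≤ c) (h0 : ∀ n, 0 ≤ F n)
    (hD : ∀ n, F n ≤ D) (h : ∀ X, X₀ ≤ X → ∑ n ∈ Finset.Ioc X (2 * X), F n ≤ c * X) (N : Win) :
    WS N F ≤ D * (1 + Real.log X₀) + (2 * wl N + 1) * c := by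
  have hb : ∀ X, X₀ ≤ X → ∑ n ∈ Finset.Ioc X (2 * X), F n / n ≤ c := by
    intro X hX'
    have hX0 : (0 : ℝ) < X := by exact_mod_cast hX.trans hX'
    calc _ ≤ ∑ n ∈ Finset.Ioc X (2 * X), F n / X := by
          refine Finset.sum_le_sum fun n hn => ?_
          exact div_le_div_of_nonneg_left (h0 n) hX0
            (by exact_mod_cast (Finset.mem_Ioc.1 hn).1.le)
      _ ≤ c := by
          rw [← Finset.sum_div, div_le_iff₀ hX0]
          exact h X hX'
  have hw := wl_nonneg N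
  have hl : (1 / 2 : ℝ) < Real.log 2 := by linarith [Real.log_two_gt_d9]
  set m := ⌈wl N / Real.log 2⌉₊ with hm
  set A := max N.A X₀ with hA
  have hA0 : (0 : ℝ) < A := by exact_mod_cast hX.trans (le_max_right _ _)
  have hm1 : wl N ≤ m * Real.log 2 := by
    rw [← div_le_iff₀ (by linarith)]
    exact Nat.le_ceil _
  have hm2 : (m : ℝ) ≤ 2 * wl N + 1 := by
    have h1 : (m : ℝ) < wl N / Real.log 2 + 1 := Nat.ceil_lt_add_one (by positivity)
    have h2 : wl N / Real.log 2 ≤ 2 * wl N := by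
      rw [div_le_iff₀ (by linarith)]
      nlinarith
    linarith
  have hB : N.B ≤ 2 ^ m * A := by
    rcases Nat.eq_zero_or_pos N.B with hB | hB
    · omega
    have h1 : Real.log N.B ≤ Real.log ((2 : ℝ) ^ m * A) := by
      rw [Real.log_mul (by positivity) hA0.ne', Real.log_pow]
      have := log_mono (a := N.A) (b := A) (le_max_left _ _)
      unfold wl at hm1
      linarith
    have h2 := (Real.log_le_log_iff (by exact_mod_cast hB) (by positivity)).1 h1
    exact_mod_cast h2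
  have hsub : Finset.Ioc N.A N.B ⊆ Finset.Icc 1 X₀ ∪ Finset.Ioc A (2 ^ m * A) := by
    intro n hn
    rw [Finset.mem_Ioc] at hn
    rw [Finset.mem_union, Finset.mem_Icc, Finset.mem_Ioc]
    rcases le_or_gt n X₀ with h1 | h1
    · exact Or.inl ⟨by omega, h1⟩
    · exact Or.inr ⟨max_lt hn.1 h1, hn.2.trans hB⟩
  have hpos : ∀ n : ℕ, 0 ≤ F n / n := fun n => div_nonneg (h0 n) (Nat.cast_nonneg n)
  have hD0 : 0 ≤ D := (h0 0).trans (hD 0)
  have e1 : ∑ n ∈ Finset.Icc 1 X₀, F n / n ≤ D * (1 + Real.log X₀) := by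
    refine le_trans ?_ (mul_le_mul_of_nonneg_left (LS_one_le X₀) hD0)
    rw [LS, Finset.mul_sum]
    refine Finset.sum_le_sum fun n _ => ?_
    rw [mul_one_div]
    exact div_le_div_of_nonneg_right (hD n) (Nat.cast_nonneg n)
  have e2 := blocks hb m (A := A) (le_max_right _ _)
  have e3 : WS N F ≤ ∑ n ∈ Finset.Icc 1 X₀, F n / n + ∑ n ∈ Finset.Ioc A (2 ^ m * A), F n / n := by
    refine (Finset.sum_le_sum_of_subset_of_nonneg hsub fun n _ _ => hpos n).trans ?_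
    rw [← Finset.sum_union_inter]
    exact le_add_of_nonneg_right (Finset.sum_nonneg fun n _ => hpos n)
  nlinarith [mul_le_mul_of_nonneg_right hm2 hc]

theorem norm_tw (α : ℝ) (n : ℕ) : ‖tw α n‖ ≤ 1 := by
  rw [tw, norm_mul, norm_ei, mul_one, norm_real]
  exact abs_lam_le n

theorem per (α : ℚ) (n : ℕ) :
    ei (2 * Real.pi * (α : ℝ) * (n + α.den : ℕ)) = ei (2 * Real.pi * (α : ℝ) * n) := by
  have h : (α : ℝ) * α.den = α.num := by exact_mod_cast α.mul_den_eq_num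
  have e : 2 * Real.pi * (α : ℝ) * (n + α.den : ℕ) =
      2 * Real.pi * (α : ℝ) * n + α.num * (2 * Real.pi) := by
    rw [← h]
    push_cast
    ring
  rw [e, ei_add]
  have : ei (α.num * (2 * Real.pi)) = 1 := by
    rw [ei, ← exp_int_mul_two_pi_mul_I α.num]
    congr 1
    push_cast
    ring
  rw [this, mul_one]

theorem ratw_of (hF : H78M.FinStmt) : RatWStmt := by
  intro α ε hε
  obtain ⟨H₁, hH⟩ := hF α.den (ε / 4) α.den_pos (by positivity)
  filter_upwards [eventually_ge_atTop H₁, eventually_ge_atTop 1] with K hK hK1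
  obtain ⟨X₁, hX⟩ := eventually_atTop.1 (hH K hK)
  have hK0 : (0 : ℝ) < K := by exact_mod_cast hK1
  set G : ℕ → ℝ := fun n => ‖∑ j ∈ Finset.range K, tw α (n + j)‖ ^ 2 with hG
  have hG0 : ∀ n, 0 ≤ G n := fun n => sq_nonneg _
  have hGK : ∀ n, G n ≤ (K : ℝ) ^ 2 := by
    intro n
    refine pow_le_pow_left₀ (norm_nonneg _) ?_ 2
    refine (norm_sum_le_of_le _ fun j _ => norm_tw α (n + j)).trans ?_
    simp
  have hb : ∀ X, max X₁ 1 ≤ X →
      ∑ n ∈ Finset.Ioc X (2 * X), G (n + 1) ≤ ε / 4 * K ^ 2 * X := by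
    intro X hX'
    have h1 := hX X ((le_max_left _ _).trans hX') (fun n => ei (2 * Real.pi * (α : ℝ) * n))
      (fun n => (norm_ei _).le) (per α)
    have h2 : ∀ n, G (n + 1) = K ^ 2 * ‖(K : ℂ)⁻¹ * ∑ j ∈ Finset.Icc 1 K,
        H78M.lam (n + j) * ei (2 * Real.pi * (α : ℝ) * (n + j : ℕ))‖ ^ 2 := by
      intro n
      have e : ∑ j ∈ Finset.range K, tw α (n + 1 + j) = ∑ j ∈ Finset.Icc 1 K,
          H78M.lam (n + j) * ei (2 * Real.pi * (α : ℝ) * (n + j : ℕ)) := by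
        rw [← Finset.Ico_add_one_right_eq_Icc, Finset.sum_Ico_eq_sum_range, Nat.add_sub_cancel]
        refine Finset.sum_congr rfl fun j _ => ?_
        rw [add_assoc]
        simp [tw, lam, H78M.lam]
      simp only [hG]
      rw [e, norm_mul, norm_inv, norm_natCast]
      field_simp
    simp only [h2]
    rw [← Finset.mul_sum]
    unfold H78M.sh at h1
    calc _ ≤ (K : ℝ) ^ 2 * (ε / 4 * X) := by gcongr
      _ = _ := by ring
  filter_upwards [tendsto_wl.eventually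
    (eventually_ge_atTop ((7 + Real.log (max X₁ 1 : ℕ) + ε / 4) * 2 / ε))] with N hN
  have h1 := window (le_max_right X₁ 1) (by positivity) (fun n => hG0 (n + 1))
    (fun n => hGK (n + 1)) hb N
  have h2 := WS_shift (f := G) (B := (K : ℝ) ^ 2)
    (fun n => by rw [abs_of_nonneg (hG0 n)]; exact hGK n) N 1
  rw [div_le_iff₀ hε] at hN
  have h3 := (abs_le.1 h2).1
  have h4 : (0 : ℝ) < (K : ℝ) ^ 2 := by positivity
  have h5 := mul_le_mul_of_nonneg_left hN h4.le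
  push_cast at h1 h3 h5 ⊢
  nlinarith

theorem ratw : RatWStmt := ratw_of fin

end Pool.Agent.MP_ca0a54_nt.BW.RATW
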