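import Pool.Agent.MP_ca0a54_nt.BH.Basic

/-!
Part T on windows: logarithmic sums over `A < n ≤ B` with `log B - log A` large.
-/

open Complex MeasureTheory Filter Topology

namespace Pool.Agent.MP_ca0a54_nt.BW

open Pool.Agent.MP_ca0a54_nt.BH

/-- A window `A < n ≤ B`. -/
structure Win where
  A : ℕ
  B : ℕ
  le : A ≤ B

/-- `∑_{A < n ≤ B} f n / n`. -/
noncomputable def WS (N : Win) (f : ℕ → ℝ) : ℝ := ∑ n ∈ Finset.Ioc N.A N.B, f n / n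

/-- `∑_{A < n ≤ B} f n / n`, complex values. -/
noncomputable def WC (N : Win) (f : ℕ → ℂ) : ℂ := ∑ n ∈ Finset.Ioc N.A N.B, f n / n

/-- The logarithmic length. -/
noncomputable def wl (N : Win) : ℝ := Real.log N.B - Real.log N.A

/-- Long windows. -/
noncomputable def Wn : Filter Win := comap wl atTop

/-- The window divided by `d`. -/
def Win.div (N : Win) (d : ℕ) : Win := ⟨N.A / d, N.B / d, Nat.div_le_div_right N.le⟩

/-- Short sums of `g` are small on long windows. -/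
def ShortW (g : ℕ → ℂ) : Prop := ∀ ε : ℝ, 0 < ε → ∀ᶠ K : ℕ in atTop, ∀ᶠ N in Wn,
  WS N (fun n => ‖∑ j ∈ Finset.range K, g (n + j)‖ ^ 2) ≤ ε * K ^ 2 * wl N

def RatWStmt : Prop := ∀ α : ℚ, ShortW (tw α)

def IrrWStmt : Prop := ∀ α : ℝ, Irrational α → ShortW (tw α)

def WienWStmt : Prop := ∀ δ : ℝ, 0 < δ → ∀ᶠ K : ℕ in atTop, ∀ᶠ N in Wn,
  ∑ k ∈ Finset.Icc 1 K, WS N (fun n => lam n * lam (n + k)) ^ 2 ≤ δ * K * wl N ^ 2

def AvgWStmt : Prop := ∀ (h : ℕ) (c ε : ℝ), 1 ≤ h → 0 < c → 0 < ε → ∀ᶠ x : ℕ in atTop,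
  ∀ᶠ N in Wn, ∀ P : Finset ℕ, (∀ p ∈ P, p.Prime ∧ x < p ∧ p ≤ 3 * x) →
  c * x / Real.log x ≤ P.card →
  WS N (fun n => (∑ p ∈ P, lam (n + p * h)) ^ 2) ≤ ε * (P.card : ℝ) ^ 2 * wl N

def EntWStmt : Prop := ∀ (h H₀ : ℕ) (c ε : ℝ) (P : ℕ → Finset ℕ), 1 ≤ h → 0 < c → 0 < ε →
  Adm h c P → ∃ G : Finset ℕ, (∀ H ∈ G, H₀ ≤ H) ∧ ∀ᶠ N in Wn, ∃ H ∈ G,
  WS N (fun n => |FA (fun j => lam (n + j)) n (P H) h H|) ≤ ε * (P H).card * H * wl N

def ChWStmt : Prop := ∀ (h : ℕ) (Λ ε : ℝ), 1 ≤ h → 0 ≤ Λ → 0 < ε → ∀ᶠ N in Wn,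
  ∀ u : ℝ → ℂ, (∀ v, ‖u v‖ ≤ 1) → (∀ v w, ‖u v - u w‖ ≤ Λ * |v - w|) →
  ‖WC N fun n => u (Real.log n) * (lam n * lam (n + h) : ℝ)‖ ≤ ε * wl N

def FinalWStmt : Prop := ∀ C ε : ℝ, 0 < ε → ∀ᶠ W : ℕ in atTop, ∀ J : ℕ, ∃ B : Finset ℕ,
  (B.card : ℝ) ≤ ε * W ∧ ∀ j : ℕ, J ≤ j → j ≤ J + W → j ∉ B → ∀ T : ℝ, 2 ^ j ≤ T →
  T ≤ 2 ^ (j + 1) → Gap T ((1 / 2 - C / Real.log T) * (2 * Real.pi / Real.log T))

theorem tendsto_wl : Tendsto wl Wn atTop := tendsto_comap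

theorem Win.mem {N : Win} {n : ℕ} (h : n ∈ Finset.Ioc N.A N.B) : 1 ≤ n ∧ n ≤ N.B :=
  ⟨Nat.succ_le_of_lt ((Nat.zero_le _).trans_lt (Finset.mem_Ioc.1 h).1), (Finset.mem_Ioc.1 h).2⟩

theorem log_mono {a b : ℕ} (h : a ≤ b) : Real.log a ≤ Real.log b := by
  rcases Nat.eq_zero_or_pos a with h0 | h0
  · rw [h0]
    simpa using Real.log_natCast_nonneg b
  · exact Real.log_le_log (by exact_mod_cast h0) (by exact_mod_cast h)

theorem wl_nonneg (N : Win) : 0 ≤ wl N := sub_nonneg.2 (log_mono N.le)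

theorem wl_le (N : Win) : wl N ≤ Real.log N.B := sub_le_self _ (Real.log_natCast_nonneg _)

theorem WC_eq (N : Win) (f : ℕ → ℂ) : WC N f = LC N.B f - LC N.A f := by
  have e : ∀ M : ℕ, Finset.Icc 1 M = Finset.Ioc 0 M := fun M => rfl
  unfold WC LC
  rw [e, e, ← Finset.sum_Ioc_consecutive _ (Nat.zero_le N.A) N.le, add_sub_cancel_left]

theorem WS_eq (N : Win) (f : ℕ → ℝ) : WS N f = LS N.B f - LS N.A f := by
  have e : ∀ M : ℕ, Finset.Icc 1 M = Finset.Ioc 0 M := fun M => rfl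
  unfold WS LS
  rw [e, e, ← Finset.sum_Ioc_consecutive _ (Nat.zero_le N.A) N.le, add_sub_cancel_left]

theorem WS_mono {N : Win} {f g : ℕ → ℝ} (h : ∀ n, 1 ≤ n → n ≤ N.B → f n ≤ g n) :
    WS N f ≤ WS N g :=
  Finset.sum_le_sum fun n hn => div_le_div_of_nonneg_right
    (h n (Win.mem hn).1 (Win.mem hn).2) (Nat.cast_nonneg n)

theorem WS_add (N : Win) (f g : ℕ → ℝ) : WS N (fun n => f n + g n) = WS N f + WS N g := by
  simp only [WS, add_div, Finset.sum_add_distrib]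

theorem WS_mul (N : Win) (c : ℝ) (f : ℕ → ℝ) : WS N (fun n => c * f n) = c * WS N f := by
  simp only [WS, mul_div_assoc, Finset.mul_sum]

theorem WS_sum {ι : Type*} (N : Win) (S : Finset ι) (f : ι → ℕ → ℝ) :
    WS N (fun n => ∑ i ∈ S, f i n) = ∑ i ∈ S, WS N (f i) := by
  simp only [WS, Finset.sum_div]
  exact Finset.sum_comm

theorem WC_add (N : Win) (f g : ℕ → ℂ) : WC N (fun n => f n + g n) = WC N f + WC N g := by
  simp only [WC, add_div, Finset.sum_add_distrib]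

theorem WC_sub (N : Win) (f g : ℕ → ℂ) : WC N (fun n => f n - g n) = WC N f - WC N g := by
  simp only [WC, sub_div, Finset.sum_sub_distrib]

theorem WC_mul (N : Win) (c : ℂ) (f : ℕ → ℂ) : WC N (fun n => c * f n) = c * WC N f := by
  simp only [WC, mul_div_assoc, Finset.mul_sum]

theorem WC_sum {ι : Type*} (N : Win) (S : Finset ι) (f : ι → ℕ → ℂ) :
    WC N (fun n => ∑ i ∈ S, f i n) = ∑ i ∈ S, WC N (f i) := by
  simp only [WC, Finset.sum_div]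
  exact Finset.sum_comm

theorem WC_ofReal (N : Win) (f : ℕ → ℝ) : WC N (fun n => (f n : ℂ)) = (WS N f : ℝ) := by
  simp [WC, WS]

theorem norm_WC_le (N : Win) (f : ℕ → ℂ) : ‖WC N f‖ ≤ WS N fun n => ‖f n‖ := by
  unfold WC WS
  refine norm_sum_le_of_le _ fun n _ => ?_
  rw [norm_div, norm_natCast]

theorem WS_nonneg {N : Win} {f : ℕ → ℝ} (h : ∀ n, 1 ≤ n → n ≤ N.B → 0 ≤ f n) : 0 ≤ WS N f := by
  have := WS_mono (N := N) (f := fun _ => 0) (g := f) h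
  simpa [WS] using this

theorem WS_le_LS {N : Win} {f : ℕ → ℝ} (h : ∀ n, 0 ≤ f n) : WS N f ≤ LS N.B f := by
  rw [WS_eq]
  exact sub_le_self _ (LS_nonneg fun n _ _ => h n)

theorem WS_one_le (N : Win) : WS N (fun _ => 1) ≤ 1 + wl N := by
  rcases Nat.eq_zero_or_pos N.A with h | h
  · refine (WS_le_LS fun _ => zero_le_one).trans ((LS_one_le _).trans (le_of_eq ?_))
    simp [wl, h]
  · exact (sum_inv_Ioc h N.le).trans (le_add_of_nonneg_left zero_le_one)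

theorem WS_le {N : Win} {f : ℕ → ℝ} {B : ℝ} (hB : 0 ≤ B) (h : ∀ n, 1 ≤ n → n ≤ N.B → f n ≤ B) :
    WS N f ≤ B * (1 + wl N) := by
  have h1 := WS_mono (N := N) (f := f) (g := fun _ => B * 1) (by simpa using h)
  rw [WS_mul] at h1
  exact h1.trans (mul_le_mul_of_nonneg_left (WS_one_le N) hB)

/-- Cauchy-Schwarz. -/
theorem WS_sq_le (N : Win) (f : ℕ → ℝ) :
    WS N f ^ 2 ≤ (1 + wl N) * WS N fun n => f n ^ 2 := by
  have h := Finset.sum_mul_sq_le_sq_mul_sq (Finset.Ioc N.A N.B) (fun n : ℕ => √(1 / (n : ℝ)))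
    fun n : ℕ => √(1 / (n : ℝ)) * f n
  have e : ∀ n : ℕ, √(1 / (n : ℝ)) ^ 2 = 1 / n := fun n => Real.sq_sqrt (by positivity)
  have h1 : ∑ n ∈ Finset.Ioc N.A N.B, √(1 / (n : ℝ)) * (√(1 / (n : ℝ)) * f n) = WS N f :=
    Finset.sum_congr rfl fun n _ => by rw [← mul_assoc, ← sq, e]; ring
  have h2 : ∑ n ∈ Finset.Ioc N.A N.B, (√(1 / (n : ℝ)) * f n) ^ 2 = WS N fun n => f n ^ 2 :=
    Finset.sum_congr rfl fun n _ => by rw [mul_pow, e]; ring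
  have h3 : ∑ n ∈ Finset.Ioc N.A N.B, √(1 / (n : ℝ)) ^ 2 = WS N fun _ => 1 :=
    Finset.sum_congr rfl fun n _ => e n
  rw [h1, h2, h3] at h
  exact h.trans (mul_le_mul_of_nonneg_right (WS_one_le N) (WS_nonneg fun n _ _ => sq_nonneg _))

theorem two_ends {a b c d : ℂ} {r : ℝ} (h1 : ‖a - c‖ ≤ r) (h2 : ‖b - d‖ ≤ r) :
    ‖a - b - (c - d)‖ ≤ 2 * r := by
  rw [sub_sub_sub_comm]
  linarith [norm_sub_le (a - c) (b - d)]

/-- Shift invariance. -/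
theorem WC_shift {f : ℕ → ℂ} {B : ℝ} (hf : ∀ n, ‖f n‖ ≤ B) (N : Win) (j : ℕ) :
    ‖WC N (fun n => f (n + j)) - WC N f‖ ≤ 6 * j * B := by
  rw [WC_eq, WC_eq]
  linarith [two_ends (LC_shift hf N.B j) (LC_shift hf N.A j)]

theorem WC_shift_one {f : ℕ → ℂ} {B : ℝ} (hf : ∀ n, ‖f n‖ ≤ B) (N : Win) :
    ‖WC N (fun n => f (n + 1)) - WC N f‖ ≤ 6 * B := by
  simpa using WC_shift hf N 1

theorem WS_shift {f : ℕ → ℝ} {B : ℝ} (hf : ∀ n, |f n| ≤ B) (N : Win) (j : ℕ) :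
    |WS N (fun n => f (n + j)) - WS N f| ≤ 6 * j * B := by
  have h := WC_shift (f := fun n => (f n : ℂ)) (fun n => by simpa using hf n) N j
  rw [WC_ofReal N fun n => f (n + j), WC_ofReal, ← ofReal_sub, norm_real] at h
  exact h

/-- Dilation: exact form. -/
theorem WC_dvd (f : ℕ → ℂ) (N : Win) {d : ℕ} (hd : 1 ≤ d) :
    WC N (fun n => if d ∣ n then f n else 0) = WC (N.div d) (fun m => f (d * m)) / d := by
  rw [WC_eq, WC_eq, LC_dvd f _ hd, LC_dvd f _ hd, sub_div]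
  rfl

theorem WC_div {f : ℕ → ℂ} {B : ℝ} (hf : ∀ n, ‖f n‖ ≤ B) (N : Win) {d : ℕ} (hd : 1 ≤ d) :
    ‖WC N f - WC (N.div d) f‖ ≤ 2 * (B * d) := by
  rw [WC_eq, WC_eq]
  exact two_ends (LC_div hf N.B hd) (LC_div hf N.A hd)

/-- Dilation invariance. -/
theorem WC_dil {f : ℕ → ℂ} {B : ℝ} (hf : ∀ n, ‖f n‖ ≤ B) (N : Win) {d : ℕ} (hd : 1 ≤ d) :
    ‖WC N (fun n => if d ∣ n then f n else 0) - WC N (fun m => f (d * m)) / d‖ ≤ 2 * B := by
  rw [WC_eq, WC_eq, sub_div]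
  exact two_ends (LC_dil hf N.B hd) (LC_dil hf N.A hd)

theorem wl_div (N : Win) {d : ℕ} (hd : 1 ≤ d) : wl (N.div d) ≤ wl N + 1 := by
  show Real.log (N.B / d : ℕ) - Real.log (N.A / d : ℕ) ≤ wl N + 1
  have h0 := wl_nonneg N
  have hd0 : (0 : ℝ) < d := by exact_mod_cast hd
  rcases Nat.eq_zero_or_pos (N.B / d) with hB | hB
  · rw [hB]
    have := Real.log_natCast_nonneg (N.A / d)
    simp only [Nat.cast_zero, Real.log_zero]
    linarith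
  have hB0 : (0 : ℝ) < (N.B / d : ℕ) := by exact_mod_cast hB
  have h1 : Real.log d + Real.log (N.B / d : ℕ) ≤ Real.log N.B := by
    rw [← Real.log_mul hd0.ne' hB0.ne', ← Nat.cast_mul]
    exact log_mono (Nat.mul_div_le _ _)
  have h2 : Real.log N.A ≤ Real.log d + Real.log (N.A / d : ℕ) + 1 := by
    have h3 := Nat.lt_mul_div_succ N.A hd
    rcases Nat.eq_zero_or_pos (N.A / d) with hA | hA
    · rw [hA] at h3 ⊢
      have := log_mono (a := N.A) (b := d) (by omega)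
      simp only [Nat.cast_zero, Real.log_zero]
      linarith
    · have hA0 : (0 : ℝ) < (N.A / d : ℕ) := by exact_mod_cast hA
      have h4 := log_mono (a := N.A) (b := d * (N.A / d) * 2) (by nlinarith)
      rw [Nat.cast_mul, Nat.cast_mul, Real.log_mul (by positivity) (by positivity),
        Real.log_mul hd0.ne' hA0.ne', Nat.cast_ofNat] at h4
      linarith [Real.log_two_lt_d9]
  unfold wl
  linarith

end Pool.Agent.MP_ca0a54_nt.BW
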