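import Pool.Agent.MP_ca0a54_nt.BW.Spec
import Pool.Agent.MP_ca0a54_nt.BH.ZFIN

/-! From the local inequality and the Chowla bound on windows to the final statement. -/

open Complex MeasureTheory Filter Topology

namespace Pool.Agent.MP_ca0a54_nt.BW.ZFINW

open Pool.Agent.MP_ca0a54_nt.BH Pool.Agent.MP_ca0a54_nt.BH.ZFIN

/-- The window attached to the dyadic blocks from `J` to `J + W`. -/
theorem window (H Λ : ℝ) (hH : 1 ≤ H) (hΛ : 1 ≤ Λ) (W J : ℕ) : ∃ N : Win,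
    N.B = ⌈H * 2 ^ (J + W + 1)⌉₊ ∧
    (∀ m : ℕ, 1 ≤ m → m ≤ N.A → Real.log m < J * Real.log 2 - Λ) ∧
    W * Real.log 2 ≤ wl N ∧ wl N ≤ W + (Real.log H + Λ + 4) := by
  have l1 := Real.log_two_gt_d9
  have l2 := Real.log_two_lt_d9
  set x : ℝ := J * Real.log 2 - Λ - 1 with hx
  have hW : (0 : ℝ) ≤ W := Nat.cast_nonneg W
  have hJ : (0 : ℝ) ≤ J := Nat.cast_nonneg J
  have hlH := Real.log_nonneg hH
  have p1 : (1 : ℝ) ≤ H * 2 ^ (J + W + 1) :=
    one_le_mul_of_one_le_of_one_le hH (one_le_pow₀ one_le_two)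
  have p0 : Real.log (H * 2 ^ (J + W + 1)) = Real.log H + (J + W + 1) * Real.log 2 := by
    rw [Real.log_mul (by linarith) (by positivity), Real.log_pow]
    push_cast
    ring
  have p2 : Real.log H + (J + W + 1) * Real.log 2 ≤ Real.log ⌈H * 2 ^ (J + W + 1)⌉₊ := by
    rw [← p0]
    exact Real.log_le_log (by linarith) (Nat.le_ceil _)
  have p3 : Real.log ⌈H * 2 ^ (J + W + 1)⌉₊ ≤ Real.log H + (J + W + 2) * Real.log 2 := by
    have h1 := Nat.ceil_lt_add_one (zero_le_one.trans p1)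
    have h2 := Real.log_le_log (zero_lt_one.trans_le (p1.trans (Nat.le_ceil _)))
      (by linarith : (⌈H * 2 ^ (J + W + 1)⌉₊ : ℝ) ≤ H * 2 ^ (J + W + 1) * 2)
    rw [Real.log_mul (by linarith) two_ne_zero, p0] at h2
    linarith
  have q1 : ∀ m : ℕ, 1 ≤ m → m ≤ ⌊Real.exp x⌋₊ → Real.log m ≤ x := fun m h1 h2 =>
    (Real.log_le_iff_le_exp (by exact_mod_cast h1)).2
      ((Nat.le_floor_iff (Real.exp_pos x).le).1 h2)
  have q2 : Real.log ⌊Real.exp x⌋₊ ≤ J * Real.log 2 := by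
    rcases Nat.eq_zero_or_pos ⌊Real.exp x⌋₊ with h | h
    · rw [h, Nat.cast_zero, Real.log_zero]
      positivity
    · linarith [q1 _ h le_rfl]
  have q3 : x - 1 ≤ Real.log ⌊Real.exp x⌋₊ := by
    have h1 := Nat.lt_floor_add_one (Real.exp x)
    rcases Nat.eq_zero_or_pos ⌊Real.exp x⌋₊ with h | h
    · rw [h, Nat.cast_zero, zero_add] at h1
      rw [h, Nat.cast_zero, Real.log_zero]
      linarith [Real.add_one_le_exp x]
    · have h0 : (1 : ℝ) ≤ ⌊Real.exp x⌋₊ := by exact_mod_cast h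
      have h2 := Real.log_le_log (Real.exp_pos x)
        (by linarith : Real.exp x ≤ ⌊Real.exp x⌋₊ * 2)
      rw [Real.log_exp, Real.log_mul (by linarith) two_ne_zero] at h2
      linarith
  have q4 : ⌊Real.exp x⌋₊ ≤ ⌈H * 2 ^ (J + W + 1)⌉₊ := by
    refine (Nat.floor_le_floor ?_).trans (Nat.floor_le_ceil _)
    rw [← Real.le_log_iff_exp_le (by linarith), p0]
    nlinarith
  refine ⟨⟨_, _, q4⟩, rfl, fun m h1 h2 => by linarith [q1 m h1 h2], ?_, ?_⟩
  · show _ ≤ Real.log ⌈H * 2 ^ (J + W + 1)⌉₊ - Real.log ⌊Real.exp x⌋₊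
    nlinarith
  · show Real.log ⌈H * 2 ^ (J + W + 1)⌉₊ - Real.log ⌊Real.exp x⌋₊ ≤ _
    nlinarith

theorem zfinw (hc : ChWStmt) (h1 : Z1Stmt) (hd : ZdStmt) (ho : Zo1Stmt) (hw : Zo2Stmt) :
    FinalWStmt := by
  classical
  intro C ε hε
  obtain ⟨K, Λ, H, hΛ, hH, hloc⟩ := loc h1 hd ho hw C
  obtain ⟨T₀, hT₀⟩ := eventually_atTop.1 hloc
  obtain ⟨j₀, hj₀⟩ := pow_unbounded_of_one_lt T₀ (one_lt_two : (1 : ℝ) < 2)
  set ε' : ℝ := ε / (40 * Λ * (K + 1)) with hε'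
  have hε0 : 0 < ε' := by positivity
  have hch : ∀ᶠ N in Wn, ∀ h ∈ Finset.Icc 1 K, ∀ u : ℝ → ℂ, (∀ v, ‖u v‖ ≤ 1) →
      (∀ v w, ‖u v - u w‖ ≤ Λ * |v - w|) →
      ‖WC N fun n => u (Real.log n) * (lam n * lam (n + h) : ℝ)‖ ≤ ε' * wl N :=
    (eventually_all_finset _).2 fun h hh => hc h Λ ε' (Finset.mem_Icc.1 hh).1 (by linarith) hε0
  obtain ⟨W₀, hW₀⟩ := eventually_atTop.1 (eventually_comap.1 hch)
  have l1 := Real.log_two_gt_d9
  filter_upwards [tendsto_natCast_atTop_atTop.eventually (eventually_ge_atTop (2 * |W₀|)),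
    tendsto_natCast_atTop_atTop.eventually (eventually_ge_atTop (2 * j₀ / ε)),
    tendsto_natCast_atTop_atTop.eventually (eventually_ge_atTop (Real.log H + Λ + 4))]
    with W hW1 hW2 hW3 J
  obtain ⟨N, n1, n2, n3, n4⟩ := window H Λ hH hΛ W J
  have hch := hW₀ (wl N) (by nlinarith [le_abs_self W₀, abs_nonneg W₀]) N rfl
  set B := (Finset.Icc (max J j₀) (J + W)).filter fun j => ∃ T : ℝ, 2 ^ j ≤ T ∧ T ≤ 2 ^ (j + 1) ∧
    ¬ Gap T ((1 / 2 - C / Real.log T) * (2 * Real.pi / Real.log T)) with hB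
  refine ⟨Finset.range j₀ ∪ B, ?_, fun j hj hj' hjB T t1 t2 => ?_⟩
  swap
  · by_contra hG
    rw [Finset.mem_union, not_or, Finset.mem_range, not_lt] at hjB
    exact hjB.2 (Finset.mem_filter.2 ⟨Finset.mem_Icc.2 ⟨max_le hj hjB.1, hj'⟩, T, t1, t2, hG⟩)
  have hex : ∀ j : ℕ, ∃ (s : ℝ) (u : ℕ → ℝ → ℂ), j ∈ B →
      (j * Real.log 2 ≤ s ∧ s ≤ (j + 1) * Real.log 2) ∧ (∀ h ∈ Finset.Icc 1 K, Wt Λ s (u h)) ∧
      1 ≤ -(∑ h ∈ Finset.Icc 1 K,
        WC N fun m => u h (Real.log m) * (lam m * lam (m + h) : ℝ)).im := fun j => by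
    by_cases hj : j ∈ B
    swap
    · exact ⟨0, 0, fun h => absurd h hj⟩
    obtain ⟨b1, T, t1, t2, hG⟩ := Finset.mem_filter.1 hj
    rw [Finset.mem_Icc, max_le_iff] at b1
    have t0 : T₀ ≤ T := hj₀.le.trans ((pow_le_pow_right₀ one_le_two b1.1.2).trans t1)
    obtain ⟨u, u1, u2⟩ := hT₀ T t0 hG
    have p0 : (0 : ℝ) < 2 ^ j := by positivity
    have s1 : j * Real.log 2 ≤ Real.log T := by
      rw [← Real.log_pow]
      exact Real.log_le_log p0 t1
    refine ⟨Real.log T, u, fun _ => ⟨⟨s1, ?_⟩, u1, ?_⟩⟩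
    · have := Real.log_le_log (p0.trans_le t1) t2
      rwa [Real.log_pow, Nat.cast_add_one] at this
    · have u3 := u2 N.B (n1 ▸ Nat.ceil_le_ceil (mul_le_mul_of_nonneg_left
        (t2.trans (pow_le_pow_right₀ one_le_two (Nat.succ_le_succ b1.2))) (by linarith)))
      refine u3.trans (le_of_eq ?_)
      congr 2
      refine Finset.sum_congr rfl fun h hh => ?_
      rw [WC_eq, eq_sub_iff_add_eq, add_eq_left]
      refine Finset.sum_eq_zero fun m hm => ?_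
      have m1 := n2 m (Finset.mem_Icc.1 hm).1 (Finset.mem_Icc.1 hm).2
      have m2 : (J : ℝ) ≤ j := by exact_mod_cast b1.1.1
      beta_reduce
      rw [(u1 h hh).supp _ (lt_abs.2 (Or.inr (by nlinarith))), zero_mul, zero_div]
  choose s u hsu using hex
  have hΛ0 : (0 : ℝ) < 10 * Λ := by linarith
  have hlog : wl N ≤ 2 * W := by linarith
  have key : ∀ h ∈ Finset.Icc 1 K, ‖∑ j ∈ B,
      WC N fun m => u j h (Real.log m) * (lam m * lam (m + h) : ℝ)‖ ≤ 10 * Λ * (ε' * (2 * W)) := by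
    intro h hh
    obtain ⟨g1, g2⟩ := glob B s (fun j => u j h) Λ hΛ (fun j hj => (hsu j hj).1)
      fun j hj => (hsu j hj).2.1 h hh
    have hn : ‖(((10 * Λ)⁻¹ : ℝ) : ℂ)‖ = (10 * Λ)⁻¹ := by
      rw [norm_real, Real.norm_of_nonneg (by positivity)]
    have g3 := hch h hh (fun v => ((10 * Λ)⁻¹ : ℝ) * ∑ j ∈ B, u j h v)
      (fun v => by rw [norm_mul, hn, inv_mul_le_iff₀ hΛ0, mul_one]; exact g1 v)
      fun v w => by rw [← mul_sub, norm_mul, hn, inv_mul_le_iff₀ hΛ0]; exact g2 v w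
    simp only [mul_assoc (((10 * Λ)⁻¹ : ℝ) : ℂ)] at g3
    rw [WC_mul, norm_mul, hn, inv_mul_le_iff₀ hΛ0] at g3
    simp only [Finset.sum_mul] at g3
    rw [WC_sum] at g3
    exact g3.trans (by gcongr)
  have hcard : (B.card : ℝ) ≤ K * (10 * Λ * (ε' * (2 * W))) := by
    have c1 : (B.card : ℝ) ≤ -(∑ j ∈ B, ∑ h ∈ Finset.Icc 1 K,
        WC N fun m => u j h (Real.log m) * (lam m * lam (m + h) : ℝ)).im := by
      rw [im_sum, ← Finset.sum_neg_distrib, Finset.card_eq_sum_ones, Nat.cast_sum]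
      exact Finset.sum_le_sum fun j hj => by simpa using (hsu j hj).2.2
    rw [Finset.sum_comm] at c1
    refine c1.trans ((neg_le_abs _).trans ((abs_im_le_norm _).trans ((norm_sum_le _ _).trans
      ((Finset.sum_le_card_nsmul _ _ _ key).trans (le_of_eq ?_)))))
    rw [nsmul_eq_mul, Nat.card_Icc, Nat.add_sub_cancel]
  have c2 : ((Finset.range j₀ ∪ B).card : ℝ) ≤ j₀ + B.card := by
    have := Finset.card_union_le (Finset.range j₀) B
    rw [Finset.card_range] at this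
    exact_mod_cast this
  have c3 : (j₀ : ℝ) ≤ ε * W / 2 := by
    rw [div_le_iff₀ hε] at hW2
    linarith
  have c4 : K * (10 * Λ * (ε' * (2 * W))) ≤ ε * W / 2 := by
    have e : (K + 1) * (10 * Λ * (ε' * (2 * W))) = ε * W / 2 := by
      rw [hε']
      field_simp
      ring
    rw [← e]
    gcongr
    linarith
  linarith

end Pool.Agent.MP_ca0a54_nt.BW.ZFINW
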